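import Pool.Agent.Run7.h152.HL.Main

/-!
# Orthogonal lifts from the weight-monodromy conjecture and conjecture D in one codimension

Let `X` be a smooth proper variety of dimension `d` over a number field `E`, let `𝒳` be a regular proper
flat model of `X` over `O_E`, and let `i = m + 1`, `d = m + n + 1`, so that `j := d + 1 - i = n + 1` is
the complementary codimension.

**Theorem.** Suppose that for each place `v` of `E` the scheme `𝒳_v` over the completion is good (for
instance smooth) or has an alteration `𝒳'` which is strictly semistable and satisfies, for one prime
number `ℓ` (which may depend on `v`),

* homological and numerical equivalence agree for cycles of the single codimension `j` on the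
  *components* of the special fibre of `𝒳'` (not on the deeper strata);
* `H^(2 j - 1)` of the generic fibre of `𝒳'`, twisted by `j`, has no invariants coming from classes
  `ρ w`, with cycles `w` on the components (`NoInvariants`). This is a small part of the weight-monodromy
  conjecture for `H^(2 j - 1)`, or equivalently `H^(2 i - 1)`.

Then each homologically trivial class in `Ch^i(X)` is the restriction of a class on `𝒳` which is
orthogonal to all classes of codimension `j` with support in closed fibres: Q1 for codimension `i`.

So Q1 follows from conjecture D and the weight-monodromy conjecture, and the conjecture of Hodge type is
not needed. It was known for strictly semistable models under Grothendieck's standard conjectures, of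
Lefschetz *and* of Hodge type, for all strata (Bloch, Gillet and Soulé), with positivity as the main
tool.

**Unconditional cases.** 1. Products of curves `X = C_1 × ⋯ × C_d`, in all codimensions: after a finite
extension they have strictly semistable models whose strata are obtained from products of curves by
projective bundles and blow-ups. For these D is true for infinitely many `ℓ` (Clozel's theorem for
abelian varieties over finite fields), and one `ℓ` for each place is enough; the weight-monodromy
conjecture is known for curves, hence for their products. 2. The same for all regular models of all
varieties `X` which are dominated by products of curves (for instance Fermat hypersurfaces): let `𝒳'` be a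
model of a product of curves as above and `𝒵` a regular scheme with alterations `p` to `𝒳'` and `q` to
`𝒳`; then `q_* p^*` on classes on `𝒳'` and `p_* q^*` on fibral classes on `𝒳` satisfy the conditions of
`Alteration` as well. 3. Complete intersections in toric varieties (Scholze), in all dimensions and
codimensions, if D is true for the components, for example if these are cellular.

The data are formalised as in `MP_62d77c_ag.OneDimensionalCycles` (where the case `n = 1` is settled by
another method, without these conditions): `Arith` consists of the groups `Ch^i(𝒳)`, `Ch^i(X)`, the
fibral classes and the intersection numbers with these; `Localisation`, `Alteration` are the maps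
for completions and for alterations, `IsSemistable` lists the facts on strictly semistable schemes
which are used: the restriction of a fibral class `b` to the components is `-τ ρ b`, and classes which
are homologically trivial on the generic fibre restrict to zero in the `E_2` term of the weight spectral
sequence. They are not proved here.

**Proof.** The question is local, and descends along alterations. By linear algebra over `ℚ` a
correction of a lift `z` by cycles `b` of codimension `i - 1` on the components exists if the
restriction of `z` is orthogonal to all `w` of codimension `j - 1` on the components such that `τ ρ w`
is numerically trivial. By D then `τ ρ w = 0`, so that `ρ w` defines an invariant of `H^(2 j - 1)(j)`,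
which is zero: `ρ w = τ (v 2)`, `ρ (v 2) + τ (v 4) = 0`, …. Since the restriction of `z` is `τ (a 1)` with
`ρ (a 1) + τ (a 3) = 0`, …, the intersection number is `a_1 · ρ w = a_1 · τ (v 2) = ρ a_1 · v_2 =
-τ a_3 · v_2 = -a_3 · ρ v_2 = a_3 · τ v_4 = …`, which is zero since there are no strata of codimension
larger than `d`.
-/

set_option autoImplicit false

universe u v w

namespace Pool.Agent.Results.MP_62d77c_ag.LiftsFromWeightMonodromy

open Run7.h152.DR Run7.h152.HL

/-- **Orthogonal lifts.** Let `A` be the groups for cycles of codimension `m + 1` on a regular proper
flat scheme with generic fibre of dimension `m + n + 1` over the ring of integers of a number field.
Suppose that over each place it is good (for instance smooth) or has a strictly semistable alteration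
such that homological and numerical equivalence agree in codimension `n + 1` on the components of the
closed fibre and `NoInvariants` holds. Then each homologically trivial class is the restriction of a
class which is orthogonal to all fibral classes. -/
theorem result {A : Arith.{w}} {S : Type w} {L : S → Arith.{w}} (Λ : Localisation A L) (m n : ℕ)
    (h : ∀ v, (L v).IsGood ∨ ∃ (A' : Arith.{w}) (Y : Fibre.{u, v, w} A'),
      Nonempty (Alteration A' (L v)) ∧ IsSemistable Y m n ∧
      (∀ l, HomNumAt Y.W (Y.T.Q 0 l) (n + 1)) ∧ NoInvariants Y.W Y.T n) : A.HasLifts := by
  refine Λ.hasLifts fun v => (h v).imp id ?_
  rintro ⟨A', Y, ⟨φ⟩, hY, hD, hN⟩
  exact φ.hasLifts (hY.hasLifts (hN.numBoundary hY.dim hD))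

end Pool.Agent.Results.MP_62d77c_ag.LiftsFromWeightMonodromy
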